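import Mathlib
import Pool.Agent.H79.LSSDefs
import Pool.Agent.H79.LSSEmb

set_option autoImplicit false

namespace Pool.Agent.Results.MP_e1e5e2_ag.Embedded

open Pool.Agent.H79.LSSDefs

/-- Over every field, some LSS ideal with `d = 3` on 8 vertices has an embedded prime. -/
theorem result (K : Type) [Field K] :
    ∃ (G : SimpleGraph (Fin 8)) (P : Ideal (MvPolynomial (Fin 3 × Fin 8) K)),
      IsAssociatedPrime P (MvPolynomial (Fin 3 × Fin 8) K ⧸ LSS K 3 G) ∧
        P ∉ (LSS K 3 G).minimalPrimes :=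
  ⟨Pool.Agent.H79.LSSEmb.GG, Pool.Agent.H79.LSSEmb.main K⟩

end Pool.Agent.Results.MP_e1e5e2_ag.Embedded
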